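import Pool.Agent.Helper44.CM.StmtsB5

/-!
# Project MM, row HIGH: higher order estimates by differentiation
-/

open MeasureTheory

namespace CM

theorem high_coef_mono {n : ℕ} {K K' : ℝ} (h : K ≤ K') {τ : E n → Mt n} (hτ : Coef K τ) :
    Coef K' τ := by
  have h1 := hτ.K_ge
  refine ⟨h1.trans h, hτ.symm, ?_, ?_, ?_, ?_⟩
  · intro x v
    have h2 := hτ.lo x v
    have h3 : K'⁻¹ ≤ K⁻¹ := inv_anti₀ (by linarith) h
    have h4 : 0 ≤ ∑ i, v i ^ 2 := Finset.sum_nonneg fun i _ => sq_nonneg _
    exact (mul_le_mul_of_nonneg_right h3 h4).trans h2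
  · intro x i j
    exact (hτ.bd x i j).trans h
  · intro x y i j
    exact (hτ.lip x y i j).trans (mul_le_mul_of_nonneg_right h dist_nonneg)
  · intro x i j
    refine (hτ.far x i j).trans ?_
    exact div_le_div_of_nonneg_right h (Real.sqrt_nonneg _)

theorem high_H2_mono {n : ℕ} (hA : ST_HBALG) {k : ℕ} {a b : ℝ} (h : a ≤ b) {u : E n → ℝ}
    (hu : H2 k a u) : H2 k b u := by
  obtain ⟨-, -, hmono, -⟩ := hA n
  exact ⟨hu.1, fun i j => hmono k k a b _ le_rfl h (hu.2 i j)⟩

theorem st_HIGH (hBE : ST_BE) (hA : ST_HBALG) (hS : ST_HBSUM) (hC : ST_COMM) : ST_HIGH := by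
  intro n j
  obtain ⟨h0, -, hmono, hadd, -, hmul, hpd, -, hH2d, hH2u⟩ := hA n
  induction j with
  | zero =>
    intro K
    obtain ⟨C, R, h⟩ := hBE n K
    refine ⟨C, R, ?_⟩
    intro τ hτ _ κ u M N hκ1 hκ2 hu hr hb _
    have hr0 : H0 N (AK τ κ u) := hr.2 [] (by simp)
    exact h τ hτ κ u M N hκ1 hκ2 hu hr0 hb
  | succ j ih =>
    intro K
    obtain ⟨C, R, h⟩ := ih (K + 1)
    set D : ℝ := max C 0 with hD
    set B : ℝ := 1 + n * (n * (2 ^ (j + 1) * K * D)) + D with hB
    refine ⟨max D (D * B), R, ?_⟩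
    intro τ hτ hτb κ u M N hκ1 hκ2 hu hr hb1 hb2
    have hK1 := hτ.K_ge
    have hD0 : 0 ≤ D := le_max_right _ _
    have hB1 : 1 + D ≤ B := by
      have : 0 ≤ (n : ℝ) * (n * (2 ^ (j + 1) * K * D)) := by positivity
      rw [hB]
      linarith
    have hN0 : 0 ≤ N := h0 N _ (hr.2 [] (by simp))
    have hτ' := high_coef_mono (show K ≤ K + 1 by linarith) hτ
    -- level `j` for `u`
    have hu1 := hH2d j M u hu
    have hτj : ∀ a b, HB j (K + 1) (fun x => τ x a b) := fun a b =>
      hmono (j + 1) j K (K + 1) _ (Nat.le_succ j) (by linarith) (hτb a b)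
    have e1 : H2 j (C * N) u :=
      h τ hτ' hτj κ u M N (by linarith) hκ2 hu1.1
        (hmono (j + 1) j N N _ (Nat.le_succ j) le_rfl hr) hb1 hb2
    have e2 : H2 j (D * N) u :=
      high_H2_mono hA (mul_le_mul_of_nonneg_right (le_max_left _ _) hN0) e1
    have hDN : D * N ≤ B * N := mul_le_mul_of_nonneg_right (by linarith) hN0
    have hNB : N ≤ B * N := by nlinarith
    -- the differentiated equation
    have e3 : ∀ i, H2 j (C * (B * N)) (pd i u) := by
      intro i
      have hc3 : ContDiff ℝ 3 u := by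
        refine hu.1.of_le ?_
        have : (3 : ℕ) ≤ j + 1 + 2 := by omega
        exact_mod_cast this
      have hc1 : ∀ a b, ContDiff ℝ 1 (fun x => τ x a b) := by
        intro a b
        refine (hτb a b).1.of_le ?_
        have : (1 : ℕ) ≤ j + 1 := by omega
        exact_mod_cast this
      have e4 : AK τ (κ - 1) (pd i u) = fun x => pd i (AK τ κ u) x +
          ∑ a, ∑ b, pd i (fun y => τ y a b) x * pd a (pd b u) x :=
        funext fun x => hC n τ κ u i hc3 hc1 x
      have e5 : HB j N (pd i (AK τ κ u)) := hpd j N _ hr i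
      have e6 : ∀ a b, HB j (2 ^ (j + 1) * K * (D * N))
          (fun x => pd i (fun y => τ y a b) x * pd a (pd b u) x) := fun a b =>
        hmul j K (D * N) _ _ (hpd j K _ (hτb a b) i) (e2.2 a b)
      have e7 : HB j (n * (n * (2 ^ (j + 1) * K * (D * N))))
          (fun x => ∑ a, ∑ b, pd i (fun y => τ y a b) x * pd a (pd b u) x) :=
        hS n j n _ _ fun a => hS n j n _ _ fun b => e6 a b
      have e8 : HB j (B * N) (AK τ (κ - 1) (pd i u)) := by
        rw [e4]
        refine hmono j j _ _ _ le_rfl ?_ (hadd j _ _ _ _ e5 e7)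
        have : 0 ≤ D * N := by positivity
        rw [hB]
        nlinarith
      refine h τ hτ' hτj (κ - 1) (pd i u) M (B * N) (by linarith) (by linarith) (hu1.2 i) e8 ?_ ?_
      · intro x hx
        exact (hb2 x i hx).trans hNB
      · intro x k _
        exact (((e2.2 k i).2 [] (by simp)).1 x).trans hDN
    have e9 : ∀ i, H2 j (max D (D * B) * N) (pd i u) := by
      intro i
      refine high_H2_mono hA ?_ (e3 i)
      have h5 : C * (B * N) ≤ D * (B * N) :=
        mul_le_mul_of_nonneg_right (le_max_left _ _) (by nlinarith)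
      have h6 : D * B * N ≤ max D (D * B) * N :=
        mul_le_mul_of_nonneg_right (le_max_right _ _) hN0
      linarith
    have e10 : H2 0 (max D (D * B) * N) u := by
      have h6 : D * N ≤ max D (D * B) * N :=
        mul_le_mul_of_nonneg_right (le_max_left _ _) hN0
      have e11 := high_H2_mono hA h6 e2
      refine ⟨e11.1.of_le ?_, fun a b => hmono j 0 _ _ _ (Nat.zero_le _) le_rfl (e11.2 a b)⟩
      have : (0 + 2 : ℕ) ≤ j + 2 := by omega
      exact_mod_cast this
    exact hH2u j _ u hu.1 e10 e9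

end CM
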